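import Pool.Agent.Helper5.GB.St

/-!
Module Big of project GB (MP_b39980_an): a closed set which crosses all strips separates.
-/

set_option autoImplicit false

open Set Filter Topology

namespace Pool.Agent.Helper47.GB

open Pool.Agent.Helper5.GB

/-- a vertical segment is a path in every set which contains it -/
theorem joined_vertical (F : Set (ℝ × ℝ)) (x y1 y2 : ℝ) (h12 : y1 ≤ y2) (h : ∀ y ∈ Icc y1 y2, (x, y) ∈ F) :
    JoinedIn F (x, y1) (x, y2) := by
  apply JoinedIn.of_segment_subset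
  intro z hz
  rw [segment_eq_image] at hz
  obtain ⟨t, ht, rfl⟩ := hz
  have e : (1 - t) • ((x, y1) : ℝ × ℝ) + t • ((x, y2) : ℝ × ℝ) = (x, (1 - t) * y1 + t * y2) := by
    ext
    · simp only [Prod.fst_add, Prod.smul_fst, smul_eq_mul]; ring
    · simp only [Prod.snd_add, Prod.smul_snd, smul_eq_mul]
  show (1 - t) • ((x, y1) : ℝ × ℝ) + t • ((x, y2) : ℝ × ℝ) ∈ F
  rw [e]
  apply h
  obtain ⟨h0, h1⟩ := ht
  constructor
  · nlinarith
  · nlinarith

theorem hBig (h1 : StCrs) : StBig := by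
  intro G lo hi hG hlo hhi hb hΓ C hC hup hdn
  by_contra hne
  rw [Set.not_nonempty_iff_eq_empty] at hne
  have hCG : C ⊆ Gᶜ := by
    intro z hz hzG
    have : z ∈ C ∩ G := ⟨hz, hzG⟩
    rw [hne] at this
    exact this
  obtain ⟨a, haC, ha⟩ := hup
  obtain ⟨v, hvC, hv⟩ := hdn
  have haG : a ∈ Gᶜ := hCG haC
  have hopen : IsOpen Gᶜ := hG.isOpen_compl
  -- a path in the complement of G
  have hJ : JoinedIn Gᶜ v a := by
    have hVo : IsOpen (connectedComponentIn Gᶜ a) := hopen.connectedComponentIn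
    have hVc : IsConnected (connectedComponentIn Gᶜ a) := isConnected_connectedComponentIn_iff.mpr haG
    have hVp : IsPathConnected (connectedComponentIn Gᶜ a) := hVo.isConnected_iff_isPathConnected.mp hVc
    have hvV : v ∈ connectedComponentIn Gᶜ a := hC.subset_connectedComponentIn haC hCG hvC
    exact (hVp.joinedIn v hvV a (mem_connectedComponentIn haG)).mono (connectedComponentIn_subset _ _)
  obtain ⟨γ, hγ⟩ := hJ
  -- a bound for the path
  obtain ⟨M, hM⟩ : ∃ M : ℝ, ∀ t, ‖γ t‖ ≤ M := by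
    obtain ⟨M, hM⟩ := (isCompact_univ (X := unitInterval)).exists_bound_of_continuousOn (f := γ) γ.continuous.continuousOn
    exact ⟨M, fun t => hM t (mem_univ _)⟩
  have hMx : ∀ t, |(γ t).1| ≤ M := fun t => le_trans (norm_fst_le (γ t)) (hM t)
  have hMy : ∀ t, |(γ t).2| ≤ M := fun t => le_trans (norm_snd_le (γ t)) (hM t)
  set N : ℝ := max 1 M with hN
  have hN1 : 1 ≤ N := le_max_left _ _
  have hNM : M ≤ N := le_max_right _ _
  obtain ⟨L1, hL1⟩ := (isCompact_Icc (a := -N) (b := N)).exists_bound_of_continuousOn hlo.continuousOn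
  obtain ⟨L2, hL2⟩ := (isCompact_Icc (a := -N) (b := N)).exists_bound_of_continuousOn hhi.continuousOn
  obtain ⟨Γ, hΓG, hΓc, hΓp, ⟨u, hu, hu1⟩, ⟨u', hu', hu1'⟩, hΓN⟩ := hΓ N hN1
  set s : ℝ := max (max L1 L2) M + 1 with hs
  have hsL1 : L1 < s := by
    have : L1 ≤ max (max L1 L2) M := le_trans (le_max_left _ _) (le_max_left _ _)
    linarith
  have hsL2 : L2 < s := by
    have : L2 ≤ max (max L1 L2) M := le_trans (le_max_right _ _) (le_max_left _ _)
    linarith
  have hsM : M < s := by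
    have : M ≤ max (max L1 L2) M := le_max_right _ _
    linarith
  have hM0 : 0 ≤ M := le_trans (abs_nonneg _) (hMx 0)
  have hlo' : ∀ x, |x| ≤ N → -s < lo x := by
    intro x hx
    have h := hL1 x (abs_le.mp hx)
    rw [Real.norm_eq_abs] at h
    linarith [(abs_le.mp h).1]
  have hhi' : ∀ x, |x| ≤ N → hi x < s := by
    intro x hx
    have h := hL2 x (abs_le.mp hx)
    rw [Real.norm_eq_abs] at h
    linarith [(abs_le.mp h).2]
  have e0 : γ 0 = v := γ.source
  have e1 : γ 1 = a := γ.target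
  have hvx : |v.1| ≤ M := by rw [← e0]; exact hMx 0
  have hvy : |v.2| ≤ M := by rw [← e0]; exact hMy 0
  have hax : |a.1| ≤ M := by rw [← e1]; exact hMx 1
  have hay : |a.2| ≤ M := by rw [← e1]; exact hMy 1
  have hmemR : ∀ z : ℝ × ℝ, |z.1| ≤ N → -s ≤ z.2 → z.2 ≤ s → z ∈ Icc (-N) N ×ˢ Icc (-s) s :=
    fun z hz h1 h2 => ⟨abs_le.mp hz, h1, h2⟩
  -- the path inside the rectangle minus Γ
  have p1 : JoinedIn ((Icc (-N) N ×ˢ Icc (-s) s) \ Γ) (v.1, -s) (v.1, v.2) := by
    have hv2 : -s ≤ v.2 := by linarith [(abs_le.mp hvy).1]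
    apply joined_vertical _ _ _ _ hv2
    intro y hy
    refine ⟨hmemR _ (le_trans hvx hNM) hy.1 (le_trans hy.2 (by linarith [(abs_le.mp hvy).2])), ?_⟩
    intro hyΓ
    have hyG := hΓG hyΓ
    have hyl := (hb _ hyG).1
    have hyl' : lo v.1 ≤ y := hyl
    have hyv : y = v.2 := le_antisymm hy.2 (le_trans hv hyl')
    rw [hyv] at hyG
    exact hCG hvC hyG
  have p3 : JoinedIn ((Icc (-N) N ×ˢ Icc (-s) s) \ Γ) (a.1, a.2) (a.1, s) := by
    have ha2 : a.2 ≤ s := by linarith [(abs_le.mp hay).2]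
    apply joined_vertical _ _ _ _ ha2
    intro y hy
    refine ⟨hmemR _ (le_trans hax hNM) (le_trans (by linarith [(abs_le.mp hay).1]) hy.1) hy.2, ?_⟩
    intro hyΓ
    have hyG := hΓG hyΓ
    have hyl := (hb _ hyG).2
    have hyl' : y ≤ hi a.1 := hyl
    have hya : y = a.2 := le_antisymm (le_trans hyl' ha) hy.1
    rw [hya] at hyG
    exact haG hyG
  have p2 : JoinedIn ((Icc (-N) N ×ˢ Icc (-s) s) \ Γ) v a := by
    refine ⟨γ, fun t => ⟨hmemR _ (le_trans (hMx t) hNM) ?_ ?_, fun h => hγ t (hΓG h)⟩⟩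
    · linarith [(abs_le.mp (hMy t)).1]
    · linarith [(abs_le.mp (hMy t)).2]
  have hJ2 : JoinedIn ((Icc (-N) N ×ˢ Icc (-s) s) \ Γ) (v.1, -s) (a.1, s) := (p1.trans p2).trans p3
  refine h1 (-N) N (-s) s Γ (v.1, -s) (a.1, s) (by linarith) (by linarith) hΓc hΓp ?_ ⟨u, hu, hu1⟩ ⟨u', hu', hu1'⟩ rfl rfl hJ2
  intro z hz
  have hzN := hΓN z hz
  have hzG := hb z (hΓG hz)
  exact hmemR z hzN (by linarith [hlo' _ hzN, hzG.1]) (by linarith [hhi' _ hzN, hzG.2])

end Pool.Agent.Helper47.GB
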